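import Pool.Agent.V113.KR.L

/-!
# MP_397fae_an, Q1: proved

For `1 < p < ∞` and `1 < q₁ < ∞` (in particular for all `q₁ ≥ q = p/(p-1)`): if `F` is the extremal
function for a kernel `k ∈ A^q` and `F ∈ H^{(p-1)q₁}`, then `k ∈ H^{q₁}`.

Idea of the proof. Put `a = (p-1)/2`. For a polynomial `g` the pairing `∑ gₙ conj kₙ` equals, by the
extremal relation, a constant times `∫ (zg)' |F|^(p-2) conj F dσ`. By Green's formula with the weight
`1 - |z|²` this is a boundary term plus the integral of `g Δ(|F|^(p-2) conj F)`, which is bounded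
pointwise by a constant times `G ΔU`, `U = (|F|²+ε)^a`, `G = (|g|²+1)^(1/2)`. The key is the pointwise
inequality `G ΔU ≤ 4 Δ(U G + U^{q₁} + G^{p₁})`, `p₁ = q₁/(q₁-1)`, after which Green's formula bounds
everything by the means of `|F|^{(p-1)q₁}` and `|g|^{p₁}`. The theorem of M. Riesz and duality finish
the proof.
-/

open MeasureTheory Set Filter Topology Complex Metric
open scoped ComplexConjugate

namespace Pool.Agent.Results.MP_397fae_an.KernelRegularity

/-- The area measure `σ` on the unit disc, normalised so that the disc has mass one. -/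
noncomputable def σ : Measure ℂ := (ENNReal.ofReal Real.pi)⁻¹ • volume.restrict (ball (0 : ℂ) 1)

/-- The integral mean `M_s(f,r)`. -/
noncomputable def mean (s : ℝ) (f : ℂ → ℂ) (r : ℝ) : ℝ :=
  ((2 * Real.pi)⁻¹ * ∫ θ in (0:ℝ)..(2 * Real.pi), ‖f (r * Complex.exp (θ * I))‖ ^ s) ^ (1 / s)

/-- `f` belongs to the Hardy space `H^s`. -/
def InHardy (s : ℝ) (f : ℂ → ℂ) : Prop :=
  DifferentiableOn ℂ f (ball 0 1) ∧ ∃ C : ℝ, ∀ r : ℝ, 0 < r → r < 1 → mean s f r ≤ C

/-- `f` belongs to the Bergman space `A^p`. -/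
def InBergman (p : ℝ) (f : ℂ → ℂ) : Prop :=
  DifferentiableOn ℂ f (ball 0 1) ∧ Integrable (fun z => ‖f z‖ ^ p) σ

/-- The norm of `A^p`. -/
noncomputable def bergmanNorm (p : ℝ) (f : ℂ → ℂ) : ℝ := (∫ z, ‖f z‖ ^ p ∂σ) ^ (1 / p)

/-- The functional `φ(f) = ∫ f conj k dσ` with kernel `k`. -/
noncomputable def functional (k f : ℂ → ℂ) : ℂ := ∫ z, f z * conj (k z) ∂σ

/-- `F` is the extremal function for the kernel `k`: it has norm one in `A^p` and maximises
`Re φ(g)` among all `g ∈ A^p` of norm one. -/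
structure IsExtremal (p : ℝ) (k F : ℂ → ℂ) : Prop where
  mem : InBergman p F
  norm_eq : bergmanNorm p F = 1
  max : ∀ g : ℂ → ℂ, InBergman p g → bergmanNorm p g = 1 →
    (functional k g).re ≤ (functional k F).re

/-- **Q1 holds.** Let `1 < p < ∞` and `1 < q₁ < ∞`. If `F` is the extremal function for a nonzero
kernel `k ∈ A^q`, `q = p/(p-1)`, and `F ∈ H^{(p-1)q₁}`, then `k ∈ H^{q₁}`. -/
theorem result (p : ℝ) (hp : 1 < p) (q₁ : ℝ) (hq₁ : 1 < q₁) (k F : ℂ → ℂ)
    (hk : InBergman (p / (p - 1)) k) (_hk0 : ∃ z ∈ ball (0 : ℂ) 1, k z ≠ 0)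
    (hF : IsExtremal p k F) (hFH : InHardy ((p - 1) * q₁) F) : InHardy q₁ k := by
  have hσ : σ = Pool.Agent.V113.KR.sg := rfl
  have hp0 : 0 < p := by linarith
  have hs : 0 < (p - 1) * q₁ := mul_pos (by linarith) (by linarith)
  have hpt : ∀ t θ : ℝ, Pool.Agent.V113.KR.pt t θ = (Real.exp t : ℂ) * Complex.exp (θ * I) := by
    intro t θ
    unfold Pool.Agent.V113.KR.pt
    rw [Complex.exp_add, Complex.ofReal_exp]
  have havg : ∀ (f : ℂ → ℂ) (s t : ℝ), Pool.Agent.V113.KR.avg (fun z => ‖f z‖ ^ s) t =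
      (2 * Real.pi)⁻¹ * ∫ θ in (0:ℝ)..(2 * Real.pi),
        ‖f ((Real.exp t : ℝ) * Complex.exp (θ * I))‖ ^ s := by
    intro f s t
    unfold Pool.Agent.V113.KR.avg
    simp only [hpt, smul_eq_mul]
  have hnn : ∀ (f : ℂ → ℂ) (s r : ℝ), 0 ≤ (2 * Real.pi)⁻¹ * ∫ θ in (0:ℝ)..(2 * Real.pi),
      ‖f (r * Complex.exp (θ * I))‖ ^ s := by
    intro f s r
    apply mul_nonneg (by positivity)
    apply intervalIntegral.integral_nonneg (by positivity)
    intro θ _
    positivity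
  have hint1 : ∀ g : ℂ → ℂ, bergmanNorm p g = 1 → ∫ z, ‖g z‖ ^ p ∂σ = 1 := by
    intro g hg
    have h0 : 0 ≤ ∫ z, ‖g z‖ ^ p ∂σ := integral_nonneg fun z => by positivity
    have h1 : (bergmanNorm p g) ^ p = ∫ z, ‖g z‖ ^ p ∂σ := by
      unfold bergmanNorm
      rw [← Real.rpow_mul h0, one_div_mul_cancel hp0.ne', Real.rpow_one]
    rw [← h1, hg, Real.one_rpow]
  obtain ⟨_, C, hC⟩ := hFH
  have hM : ∀ t < 0, Pool.Agent.V113.KR.avg (fun z => ‖F z‖ ^ ((p - 1) * q₁)) t ≤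
      C ^ ((p - 1) * q₁) := by
    intro t ht
    have hr1 : Real.exp t < 1 := by rw [← Real.exp_zero]; exact Real.exp_lt_exp.mpr ht
    have h1 := hC (Real.exp t) (Real.exp_pos t) hr1
    have h0 := hnn F ((p - 1) * q₁) (Real.exp t)
    unfold mean at h1
    have h2 := Real.rpow_le_rpow (by positivity) h1 hs.le
    rw [← Real.rpow_mul h0, one_div_mul_cancel hs.ne', Real.rpow_one] at h2
    rw [havg]
    exact h2
  obtain ⟨B0, hB0⟩ := Pool.Agent.V113.KR.main hp hq₁ hF.mem.1 hk.1 hF.mem.2 (hint1 F hF.norm_eq) hk.2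
    (fun g hg hgi hg1 => hF.max g ⟨hg, hgi⟩ (by
      unfold bergmanNorm
      rw [hσ, hg1, Real.one_rpow])) hM
  refine ⟨hk.1, B0 ^ (1 / q₁), fun r hr hr1 => ?_⟩
  have ht : Real.log r < 0 := Real.log_neg hr hr1
  have h1 := hB0 (Real.log r) ht
  rw [havg, Real.exp_log hr] at h1
  unfold mean
  apply Real.rpow_le_rpow (hnn k q₁ r) h1
  positivity

end Pool.Agent.Results.MP_397fae_an.KernelRegularity
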